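import Pool.Agent.H61.SC.Ex
import Pool.Agent.H61.SC.Stmts

/-!
# SC: the inequality of Falik and Samorodnitsky
-/

set_option autoImplicit false
set_option linter.unusedSectionVars false

namespace Pool.SC

open Finset

namespace FSaux

variable {α : Type} [DecidableEq α] {p : ℝ} {F : Finset α} {f : Finset α → ℝ}

/-- average over the coordinate `e` -/
def av (p : ℝ) (e : α) (f : Finset α → ℝ) : Finset α → ℝ :=
  fun s => (1 - p) * f (s.erase e) + p * f (insert e s)

theorem av_of {e : α} {s : Finset α} (hs : e ∉ s) :
    av p e f s = (1 - p) * f s + p * f (insert e s) := by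
  rw [av, Finset.erase_eq_of_notMem hs]

theorem av_insert {e : α} {s : Finset α} (hs : e ∉ s) :
    av p e f (insert e s) = (1 - p) * f s + p * f (insert e s) := by
  rw [av, Finset.erase_insert hs, Finset.insert_idem]

theorem gr_of {e : α} {s : Finset α} (hs : e ∉ s) : gr e f s = f (insert e s) - f s := by
  rw [gr, Finset.erase_eq_of_notMem hs]

theorem ex_av {e : α} (he : e ∉ F) : ex p F (av p e f) = ex p (insert e F) f := by
  rw [ex_insert he, ← ex_mul_left, ← ex_mul_left, ← ex_add]
  exact ex_congr fun s hs => av_of fun h => he (hs h)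

theorem gr_av {e x : α} (hx : x ≠ e) (s : Finset α) :
    gr x (av p e f) s = av p e (gr x f) s := by
  have h1 : (insert x s).erase e = insert x (s.erase e) :=
    Finset.erase_insert_of_ne hx
  have h2 : insert e (insert x s) = insert x (insert e s) := Finset.insert_comm _ _ _
  have h3 : (s.erase x).erase e = (s.erase e).erase x := Finset.erase_right_comm
  have h4 : insert e (s.erase x) = (insert e s).erase x :=
    (Finset.erase_insert_of_ne (Ne.symm hx)).symm
  simp only [gr, av, h1, h2, h3, h4]
  ring

theorem gr_av_self (e : α) (s : Finset α) : gr e (av p e f) s = 0 := by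
  have h1 : (insert e s).erase e = s.erase e := by
    ext x
    simp only [Finset.mem_erase, Finset.mem_insert]
    tauto
  have h2 : insert e (s.erase e) = insert e s := by
    ext x
    simp only [Finset.mem_erase, Finset.mem_insert]
    tauto
  simp only [gr, av, Finset.insert_idem, h1, h2, Finset.erase_idem]
  ring

/-- the difference of `f` and its average -/
def df (p : ℝ) (e : α) (f : Finset α → ℝ) : Finset α → ℝ := fun s => f s - av p e f s

theorem gr_df {e x : α} (hx : x ≠ e) (s : Finset α) :
    gr x (df p e f) s = gr x f s - av p e (gr x f) s := by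
  rw [← gr_av hx]
  simp only [gr, df]
  ring

theorem gr_df_self (e : α) (s : Finset α) : gr e (df p e f) s = gr e f s := by
  have h := gr_av_self (p := p) (f := f) e s
  simp only [gr] at h
  simp only [gr, df]
  linarith

theorem ex_sq_df {e : α} (he : e ∉ F) :
    ex p (insert e F) (fun s => (f s - av p e f s) ^ 2) =
      ex p (insert e F) (fun s => f s ^ 2) - ex p F (fun s => av p e f s ^ 2) := by
  rw [ex_insert he, ex_insert he, ← ex_mul_left, ← ex_mul_left, ← ex_mul_left, ← ex_mul_left,
    ← ex_add, ← ex_add, ← ex_sub]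
  refine ex_congr fun s hs => ?_
  have hes : e ∉ s := fun h => he (hs h)
  rw [av_of hes, av_insert hes]
  ring

theorem ex_sq_df' {e : α} (he : e ∉ F) :
    ex p (insert e F) (fun s => (df p e f s) ^ 2) =
      p * (1 - p) * ex p F (fun s => gr e f s ^ 2) := by
  rw [ex_insert he, ← ex_mul_left, ← ex_mul_left, ← ex_mul_left, ← ex_add]
  refine ex_congr fun s hs => ?_
  have hes : e ∉ s := fun h => he (hs h)
  rw [df, df, av_of hes, av_insert hes, gr_of hes]
  ring

theorem ex_abs_df {e : α} (he : e ∉ F) (hp0 : 0 < p) (hp1 : p < 1) :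
    ex p (insert e F) (fun s => |df p e f s|) =
      2 * p * (1 - p) * ex p F (fun s => |gr e f s|) := by
  rw [ex_insert he, ← ex_mul_left, ← ex_mul_left, ← ex_mul_left, ← ex_add]
  refine ex_congr fun s hs => ?_
  have hes : e ∉ s := fun h => he (hs h)
  rw [df, df, av_of hes, av_insert hes, gr_of hes]
  have h1 : f s - ((1 - p) * f s + p * f (insert e s)) = p * (-(f (insert e s) - f s)) := by ring
  have h2 : f (insert e s) - ((1 - p) * f s + p * f (insert e s)) =
    (1 - p) * (f (insert e s) - f s) := by ring
  rw [h1, h2, abs_mul, abs_mul, abs_neg, abs_of_pos hp0, abs_of_pos (sub_pos.2 hp1)]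
  ring

theorem ex_gr_insert {e : α} (he : e ∉ F) (k : ℝ → ℝ) :
    ex p (insert e F) (fun s => k (gr e f s)) = ex p F (fun s => k (gr e f s)) := by
  rw [ex_insert he]
  have : ex p F (fun s => k (gr e f (insert e s))) = ex p F (fun s => k (gr e f s)) :=
    ex_congr fun s _ => by rw [gr_insert]
  rw [this]
  ring

theorem va_insert {e : α} (he : e ∉ F) :
    va p (insert e F) f = va p F (av p e f) + p * (1 - p) * ex p F (fun s => gr e f s ^ 2) := by
  rw [← ex_sq_df' he, va_eq, va_eq, ex_av he]
  have := ex_sq_df (p := p) (f := f) he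
  simp only [df]
  linarith

theorem eq_zero_of_ex {h : Finset α → ℝ} (hp0 : 0 < p) (hp1 : p < 1) (hh : ∀ s ⊆ F, 0 ≤ h s)
    (h0 : ex p F h = 0) : ∀ s ⊆ F, h s = 0 := by
  intro s hs
  have hw : ∀ s : Finset α, 0 < p ^ s.card * (1 - p) ^ (F.card - s.card) := fun s =>
    mul_pos (pow_pos hp0 _) (pow_pos (by linarith) _)
  unfold ex at h0
  rw [Finset.sum_eq_zero_iff_of_nonneg fun s hs =>
    mul_nonneg (hw s).le (hh s (Finset.mem_powerset.1 hs))] at h0
  have h1 := h0 s (Finset.mem_powerset.2 hs)
  exact (mul_eq_zero.1 h1).resolve_left (hw s).ne'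

/-- Jensen -/
theorem jensen (hp0 : 0 < p) (hp1 : p < 1) (d : Finset α → ℝ)
    (hA : 0 < ex p F (fun s => d s ^ 2)) (hB : 0 < ex p F (fun s => |d s|)) :
    ex p F (fun s => d s ^ 2) *
        Real.log (ex p F (fun s => d s ^ 2) / (ex p F (fun s => |d s|)) ^ 2) ≤
      ex p F (fun s => d s ^ 2 * Real.log (d s ^ 2))
        - ex p F (fun s => d s ^ 2) * Real.log (ex p F (fun s => d s ^ 2)) := by
  set A := ex p F (fun s => d s ^ 2) with hAdef
  set B := ex p F (fun s => |d s|) with hBdef
  have key : ∀ s, 2 * (d s ^ 2 * Real.log (A / B) + d s ^ 2 - A / B * |d s|) ≤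
      d s ^ 2 * Real.log (d s ^ 2) := by
    intro s
    by_cases h0 : d s = 0
    · rw [h0]
      simp
    · have h1 : 0 < |d s| := abs_pos.2 h0
      have h2 : 0 < |d s| * B / A := by positivity
      have h3 := Real.one_sub_inv_le_log_of_pos h2
      have h4 : Real.log (|d s| * B / A) = Real.log |d s| - Real.log (A / B) := by
        rw [Real.log_div (by positivity) (by positivity), Real.log_mul (by positivity)
          (by positivity), Real.log_div (by positivity) (by positivity)]
        ring
      have h5 : d s ^ 2 = |d s| ^ 2 := (sq_abs _).symm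
      have h6 : Real.log (d s ^ 2) = 2 * Real.log |d s| := by
        rw [h5, Real.log_pow]
        norm_num
      rw [h4] at h3
      rw [h6, h5]
      have h7 : |d s| ^ 2 * (|d s| * B / A)⁻¹ = A / B * |d s| := by
        field_simp
      have h8 : |d s| ^ 2 * (1 - (|d s| * B / A)⁻¹) ≤
          |d s| ^ 2 * (Real.log |d s| - Real.log (A / B)) :=
        mul_le_mul_of_nonneg_left h3 (by positivity)
      rw [mul_sub, h7, mul_one, mul_sub] at h8
      linarith
  have h1 : ex p F (fun s => 2 * (d s ^ 2 * Real.log (A / B) + d s ^ 2 - A / B * |d s|)) ≤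
      ex p F (fun s => d s ^ 2 * Real.log (d s ^ 2)) :=
    ex_mono hp0.le hp1.le fun s _ => key s
  rw [ex_mul_left, ex_sub, ex_add, ex_mul_right, ex_mul_left, ← hAdef, ← hBdef] at h1
  have h2 : A / B * B = A := by field_simp
  rw [h2] at h1
  have h3 : Real.log (A / B ^ 2) = 2 * Real.log (A / B) - Real.log A := by
    rw [Real.log_div hA.ne' (by positivity), Real.log_div hA.ne' hB.ne', Real.log_pow]
    push_cast
    ring
  rw [h3]
  linarith

theorem main (hLS : S_LS) (hp0 : 0 < p) (hp1 : p < 1) (F : Finset α) : ∀ f : Finset α → ℝ,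
    ∃ v : α → ℝ, (∀ x ∈ F, 0 ≤ v x) ∧ (∀ x ∈ F, ex p F (fun s => |gr x f s|) = 0 → v x = 0) ∧
      ∑ x ∈ F, v x = va p F f ∧
      ∑ x ∈ F, v x * Real.log (v x / (ex p F (fun s => |gr x f s|)) ^ 2) ≤
        2 * ∑ x ∈ F, ex p F (fun s => gr x f s ^ 2) := by
  induction F using Finset.induction_on with
  | empty =>
    intro f
    refine ⟨fun _ => 0, by simp, by simp, ?_, by simp⟩
    simp [va, ex_empty]
  | insert e F he ih =>
    intro f
    obtain ⟨v, hv0, hvz, hvs, hvl⟩ := ih (av p e f)
    have hpp : 0 < p * (1 - p) := mul_pos hp0 (by linarith)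
    set w : ℝ := p * (1 - p) * ex p F (fun s => gr e f s ^ 2) with hw
    have hw0 : 0 ≤ w := mul_nonneg hpp.le (ex_nonneg hp0.le hp1.le fun s _ => sq_nonneg _)
    have hne : ∀ x ∈ F, x ≠ e := fun x hx h => he (h ▸ hx)
    -- comparison of the first moments
    have hcmp : ∀ x ∈ F, ex p F (fun s => |gr x (av p e f) s|) ≤
        ex p (insert e F) (fun s => |gr x f s|) := by
      intro x hx
      rw [← ex_av he]
      refine ex_mono hp0.le hp1.le fun s _ => ?_
      rw [gr_av (hne x hx)]
      simp only [av]
      refine (abs_add_le _ _).trans ?_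
      rw [abs_mul, abs_mul, abs_of_pos hp0, abs_of_pos (sub_pos.2 hp1)]
    have hnn : ∀ (G : Finset α) (k : Finset α → ℝ) (x : α), 0 ≤ ex p G (fun s => |gr x k s|) :=
      fun G k x => ex_nonneg hp0.le hp1.le fun s _ => abs_nonneg _
    refine ⟨fun x => if x = e then w else v x, ?_, ?_, ?_, ?_⟩
    · intro x hx
      by_cases h : x = e
      · simp only [h, if_true]
        exact hw0
      · simp only [h, if_false]
        exact hv0 x ((Finset.mem_insert.1 hx).resolve_left h)
    · intro x hx h0
      by_cases h : x = e
      · simp only [h, if_true]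
        rw [h, ex_gr_insert he (fun y => |y|)] at h0
        have h1 := eq_zero_of_ex hp0 hp1 (fun s _ => abs_nonneg _) h0
        rw [hw]
        have h2 : ex p F (fun s => gr e f s ^ 2) = 0 := by
          have h3 : ex p F (fun s => gr e f s ^ 2) = ex p F (fun _ => (0 : ℝ)) := by
            refine ex_congr fun s hs => ?_
            rw [abs_eq_zero.1 (h1 s hs)]
            ring
          rw [h3, ex_const]
        rw [h2, mul_zero]
      · simp only [h, if_false]
        have hxF := (Finset.mem_insert.1 hx).resolve_left h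
        refine hvz x hxF (le_antisymm ?_ (hnn _ _ _))
        rw [← h0]
        exact hcmp x hxF
    · rw [Finset.sum_insert he, if_pos rfl, va_insert he, ← hvs, add_comm]
      congr 1
      exact Finset.sum_congr rfl fun x hx => if_neg (hne x hx)
    · rw [Finset.sum_insert he, Finset.sum_insert he]
      simp only [if_true]
      have h1 : ∑ x ∈ F, (if x = e then w else v x) *
          Real.log ((if x = e then w else v x) /
            (ex p (insert e F) (fun s => |gr x f s|)) ^ 2) ≤
          ∑ x ∈ F, v x * Real.log (v x / (ex p F (fun s => |gr x (av p e f) s|)) ^ 2) := by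
        refine Finset.sum_le_sum fun x hx => ?_
        rw [if_neg (hne x hx)]
        rcases (hv0 x hx).eq_or_lt with h | h
        · rw [← h, zero_mul, zero_mul]
        · refine mul_le_mul_of_nonneg_left ?_ h.le
          have h2 : 0 < ex p F (fun s => |gr x (av p e f) s|) := by
            refine (hnn _ _ _).lt_of_ne fun h3 => ?_
            exact h.ne' (hvz x hx h3.symm)
          have h3 : 0 < ex p (insert e F) (fun s => |gr x f s|) := h2.trans_le (hcmp x hx)
          refine Real.log_le_log (by positivity) ?_
          exact div_le_div_of_nonneg_left h.le (by positivity)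
            (pow_le_pow_left₀ h2.le (hcmp x hx) 2)
      -- the new term
      have h2 : w * Real.log (w / (ex p (insert e F) (fun s => |gr e f s|)) ^ 2) ≤
          2 * (ex p (insert e F) (fun s => gr e f s ^ 2) +
            ∑ x ∈ F, (ex p (insert e F) (fun s => gr x f s ^ 2) -
              ex p F (fun s => gr x (av p e f) s ^ 2))) := by
        have h3 : ∑ x ∈ insert e F, ex p (insert e F) (fun s => gr x (df p e f) s ^ 2) =
            ex p (insert e F) (fun s => gr e f s ^ 2) +
            ∑ x ∈ F, (ex p (insert e F) (fun s => gr x f s ^ 2) -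
              ex p F (fun s => gr x (av p e f) s ^ 2)) := by
          rw [Finset.sum_insert he]
          congr 1
          · exact ex_congr fun s _ => by rw [gr_df_self]
          · refine Finset.sum_congr rfl fun x hx => ?_
            have h4 := ex_sq_df (p := p) (f := gr x f) he
            have h5 : ex p (insert e F) (fun s => gr x (df p e f) s ^ 2) =
                ex p (insert e F) (fun s => (gr x f s - av p e (gr x f) s) ^ 2) :=
              ex_congr fun s _ => by rw [gr_df (hne x hx)]
            have h6 : ex p F (fun s => gr x (av p e f) s ^ 2) =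
                ex p F (fun s => av p e (gr x f) s ^ 2) :=
              ex_congr fun s _ => by rw [gr_av (hne x hx)]
            rw [h5, h4, h6]
        rw [← h3]
        have h4 := hLS α p hp0 hp1 (insert e F) (df p e f)
        refine le_trans ?_ h4
        have h5 : ex p (insert e F) (fun s => (df p e f s) ^ 2) = w := ex_sq_df' he
        rcases hw0.eq_or_lt with h6 | h6
        · rw [h5, ← h6, zero_mul, zero_mul, sub_zero]
          have h7 : ∀ s ⊆ insert e F, (df p e f s) ^ 2 = 0 :=
            eq_zero_of_ex hp0 hp1 (fun s _ => sq_nonneg _) (h5.trans h6.symm)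
          have h8 : ex p (insert e F) (fun s => df p e f s ^ 2 * Real.log (df p e f s ^ 2)) =
              ex p (insert e F) (fun _ => (0 : ℝ)) := by
            refine ex_congr fun s hs => ?_
            rw [h7 s hs, zero_mul]
          rw [h8, ex_const]
        · have hB : 0 < ex p (insert e F) (fun s => |df p e f s|) := by
            refine (ex_nonneg hp0.le hp1.le fun s _ => abs_nonneg _).lt_of_ne fun h7 => ?_
            have h8 := eq_zero_of_ex hp0 hp1 (fun s _ => abs_nonneg _) h7.symm
            have h9 : ex p (insert e F) (fun s => (df p e f s) ^ 2) =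
                ex p (insert e F) (fun _ => (0 : ℝ)) := by
              refine ex_congr fun s hs => ?_
              rw [abs_eq_zero.1 (h8 s hs)]
              ring
            rw [h5, ex_const] at h9
            exact h6.ne' h9
          have h7 := jensen hp0 hp1 (df p e f) (by rw [h5]; exact h6) hB
          refine le_trans ?_ h7
          rw [h5]
          refine mul_le_mul_of_nonneg_left ?_ h6.le
          have h8 : ex p (insert e F) (fun s => |df p e f s|) ≤
              ex p (insert e F) (fun s => |gr e f s|) := by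
            rw [ex_abs_df he hp0 hp1, ex_gr_insert he (fun y => |y|)]
            refine mul_le_of_le_one_left (hnn _ _ _) ?_
            nlinarith [sq_nonneg (p - 1 / 2)]
          refine Real.log_le_log (div_pos h6 (pow_pos (hB.trans_le h8) 2)) ?_
          exact div_le_div_of_nonneg_left h6.le (by positivity)
            (pow_le_pow_left₀ hB.le h8 2)
      rw [Finset.sum_sub_distrib] at h2
      linarith

theorem logsum {x V W u : ℝ} (hx : 0 < x) (hV : 0 < V) (hW : 0 < W) (hu : 0 < u) :
    x * Real.log (V / W) + (x - V / W * u) ≤ x * Real.log (x / u) := by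
  have h4 : 0 < x * W / (u * V) := by positivity
  have h5 := Real.one_sub_inv_le_log_of_pos h4
  have h6 : Real.log (x * W / (u * V)) = Real.log (x / u) - Real.log (V / W) := by
    rw [Real.log_div (by positivity) (by positivity), Real.log_mul hx.ne' hW.ne',
      Real.log_mul hu.ne' hV.ne', Real.log_div hx.ne' hu.ne', Real.log_div hV.ne' hW.ne']
    ring
  rw [h6] at h5
  have h7 := mul_le_mul_of_nonneg_left h5 hx.le
  have h8 : x * (1 - (x * W / (u * V))⁻¹) = x - V / W * u := by
    field_simp
  rw [h8, mul_sub] at h7
  linarith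

end FSaux

open FSaux in
/-- **FS.** -/
theorem fs_thm (hLS : S_LS) : S_FS := by
  intro α _ p hp0 hp1 F f hva
  obtain ⟨v, hv0, hvz, hvs, hvl⟩ := main hLS hp0 hp1 F f
  refine le_trans ?_ hvl
  set W := ∑ e ∈ F, (ex p F (fun s => |gr e f s|)) ^ 2 with hW
  set V := va p F f with hV
  have hwn : ∀ x ∈ F, 0 ≤ (ex p F (fun s => |gr x f s|)) ^ 2 := fun x _ => sq_nonneg _
  have hWp : 0 < W := by
    refine (Finset.sum_nonneg hwn).lt_of_ne fun h => ?_
    have h1 := (Finset.sum_eq_zero_iff_of_nonneg hwn).1 h.symm
    have h2 : ∑ x ∈ F, v x = 0 :=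
      Finset.sum_eq_zero fun x hx => hvz x hx (pow_eq_zero_iff two_ne_zero |>.1 (h1 x hx))
    rw [hvs] at h2
    exact hva.ne' h2
  have key : ∀ x ∈ F, v x * Real.log (V / W) + (v x - V / W *
      (ex p F (fun s => |gr x f s|)) ^ 2) ≤
      v x * Real.log (v x / (ex p F (fun s => |gr x f s|)) ^ 2) := by
    intro x hx
    rcases (hv0 x hx).eq_or_lt with h | h
    · rw [← h, zero_mul, zero_mul, zero_add, zero_sub]
      have : 0 ≤ V / W * (ex p F (fun s => |gr x f s|)) ^ 2 :=
        mul_nonneg (div_nonneg hva.le hWp.le) (hwn x hx)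
      linarith
    · have h2 : (ex p F (fun s => |gr x f s|)) ≠ 0 := fun h3 => h.ne' (hvz x hx h3)
      have h3 : 0 < (ex p F (fun s => |gr x f s|)) ^ 2 := pow_pos (lt_of_le_of_ne
        (ex_nonneg hp0.le hp1.le fun s _ => abs_nonneg _) (Ne.symm h2)) 2
      exact logsum h hva hWp h3
  have h1 := Finset.sum_le_sum key
  rw [Finset.sum_add_distrib, ← Finset.sum_mul, Finset.sum_sub_distrib, ← Finset.mul_sum, hvs,
    ← hW] at h1
  have h2 : V / W * W = V := div_mul_cancel₀ _ hWp.ne'
  rw [h2, sub_self, add_zero] at h1
  exact h1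

end Pool.SC
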